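import Pool.Agent.Lib.MP_ad4d1c_co_h48.ExDefs

set_option autoImplicit false

/-!
# Module C1 of the exact Felsner–Trotter theorem: composition of families
-/

namespace Pool.Agent.Lib.MP_ad4d1c_co_h48.Ex

open Finset

private theorem mem_comp_zero {y : ℕ} {N Y : Fam} {p : Pr} : p ∈ comp y N Y 0 ↔ p ∈ N 0 := Iff.rfl

private theorem mem_comp_succ {y l : ℕ} {N Y : Fam} {p : Pr} :
    p ∈ comp y N Y (l + 1) ↔ p ∈ N (l + 1) ∨ ∃ p' ∈ Y l, ins y p' = p := by
  simp [comp]

private theorem insert_subset_insert_iff' {y : ℕ} {A B : Finset ℕ} (hA : y ∉ A) :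
    insert y A ⊆ insert y B ↔ A ⊆ B := by
  constructor
  · intro h x hx
    have hxy : x ≠ y := fun e => hA (e ▸ hx)
    rcases mem_insert.1 (h (mem_insert_of_mem hx)) with h1 | h1
    · exact absurd h1 hxy
    · exact h1
  · exact fun h => insert_subset_insert y h

private theorem insert_inj' {y : ℕ} {A B : Finset ℕ} (hA : y ∉ A) (hB : y ∉ B) :
    insert y A = insert y B ↔ A = B := by
  constructor
  · intro h
    apply subset_antisymm
    · exact (insert_subset_insert_iff' hA).1 h.subset
    · exact (insert_subset_insert_iff' hB).1 h.symm.subset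
  · rintro rfl; rfl

/-- members of a T-PV family on `c` do not contain `y ∉ c` -/
private theorem TPV.not_mem {b : List ℕ} {T L : Fam} (h : TPV b T L) {y : ℕ} (hy : y ∉ b) {l : ℕ} {p : Pr}
    (hp : p ∈ T l ++ L l) : y ∉ p.1 ∧ y ∉ p.2 := by
  obtain ⟨h1, h2, -, -⟩ := h.mem l p hp
  have : y ∉ p.1 := fun hh => hy (List.mem_toFinset.1 (h2 hh))
  exact ⟨this, fun hh => this (h1 hh)⟩

private theorem toFinset_perm {c b : List ℕ} (h : c.Perm b) : c.toFinset = b.toFinset := by
  ext x; simp [h.mem_iff]

theorem TPV.comp {b c : List ℕ} {y : ℕ} {TN LN TW LW : Fam} (hN : TPV b TN LN) (hE : Ends c LN)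
    (hW : TPV c TW LW) (hp : c.Perm b) (hy : y ∉ b) (hb : b ≠ [])
    (hne : ∀ l, l < b.length → LN l ≠ [])
    (hdis : ∀ l, TN (l + 1) = [] ∨ TW l = [])
    (hmark : ∀ l, ∀ p ∈ TW l, ∀ q ∈ LN (l + 1), q.2 ≠ p.1) :
    TPV (b ++ [y]) (comp y TN TW) (comp y LN LW) := by
  have hyc : y ∉ c := fun h => hy (hp.mem_iff.1 h)
  have hcb : c.toFinset = b.toFinset := toFinset_perm hp
  have hlen : c.length = b.length := hp.length_eq
  have hbpos : 0 < b.length := List.length_pos_iff.2 hb
  -- membership in a level of the composition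
  have hcases : ∀ l, ∀ p ∈ Ex.comp y TN TW (l + 1) ++ Ex.comp y LN LW (l + 1),
      (p ∈ TN (l + 1) ++ LN (l + 1)) ∨ ∃ p' ∈ TW l ++ LW l, ins y p' = p := by
    intro l p hp
    rcases List.mem_append.1 hp with h | h
    · rcases mem_comp_succ.1 h with h | ⟨p', h, e⟩
      · exact Or.inl (List.mem_append.2 (Or.inl h))
      · exact Or.inr ⟨p', List.mem_append.2 (Or.inl h), e⟩
    · rcases mem_comp_succ.1 h with h | ⟨p', h, e⟩
      · exact Or.inl (List.mem_append.2 (Or.inr h))
      · exact Or.inr ⟨p', List.mem_append.2 (Or.inr h), e⟩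
  refine ⟨?_, ?_, ?_, ?_, ?_, ?_, ?_, ?_⟩
  · -- nodup
    exact List.nodup_append.2 ⟨hN.nd, List.nodup_singleton y, by
      intro x hx z hz
      simp only [List.mem_singleton] at hz
      rintro rfl
      exact hy (hz ▸ hx)⟩
  · -- mem
    intro l p hp
    have hsub : b.toFinset ⊆ (b ++ [y]).toFinset := by
      intro x hx; simp only [List.toFinset_append, mem_union]; exact Or.inl hx
    have hyin : y ∈ (b ++ [y]).toFinset := by simp
    cases l with
    | zero =>
      obtain ⟨h1, h2, h3, h4⟩ := hN.mem 0 p hp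
      exact ⟨h1, h2.trans hsub, h3, h4⟩
    | succ l =>
      rcases hcases l p hp with h | ⟨p', h, rfl⟩
      · obtain ⟨h1, h2, h3, h4⟩ := hN.mem (l + 1) p h
        exact ⟨h1, h2.trans hsub, h3, h4⟩
      · obtain ⟨h1, h2, h3, h4⟩ := hW.mem l p' h
        obtain ⟨n1, n2⟩ := hW.not_mem hyc h
        refine ⟨insert_subset_insert y h1, ?_, ?_, ?_⟩
        · exact insert_subset hyin ((h2.trans hcb.subset).trans hsub)
        · simp only [ins]; rw [card_insert_of_notMem n1, h3]
        · simp only [ins]; rw [card_insert_of_notMem n2, h4]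
  · -- pw
    intro l
    cases l with
    | zero => exact hN.pw 0
    | succ l =>
      have hNpw := List.pairwise_append.1 (hN.pw (l + 1))
      have hWpw := List.pairwise_append.1 (hW.pw l)
      have key : ∀ p ∈ TW l ++ LW l, ∀ q ∈ TW l ++ LW l, ¬ q.2 ⊆ p.1 →
          ¬ (ins y q).2 ⊆ (ins y p).1 := by
        intro p _ q hq h hh
        exact h ((insert_subset_insert_iff' (hW.not_mem hyc hq).2).1 hh)
      have key2 : ∀ p ∈ TN (l + 1) ++ LN (l + 1), ∀ q ∈ TW l ++ LW l,
          ¬ (ins y q).2 ⊆ p.1 := by
        intro p hp q hq hh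
        exact (hN.not_mem hy hp).1 (hh (mem_insert_self y _))
      show List.Pairwise _ ((TN (l + 1) ++ (TW l).map (ins y)) ++ (LN (l + 1) ++ (LW l).map (ins y)))
      refine List.pairwise_append.2 ⟨List.pairwise_append.2 ⟨hNpw.1, ?_, ?_⟩,
        List.pairwise_append.2 ⟨hNpw.2.1, ?_, ?_⟩, ?_⟩
      · rw [List.pairwise_map]
        exact List.Pairwise.imp_of_mem (fun {p q} hp hq h =>
          key p (List.mem_append.2 (Or.inl hp)) q (List.mem_append.2 (Or.inl hq)) h) hWpw.1
      · intro p hp q hq
        obtain ⟨q', hq', rfl⟩ := List.mem_map.1 hq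
        exact key2 p (List.mem_append.2 (Or.inl hp)) q' (List.mem_append.2 (Or.inl hq'))
      · rw [List.pairwise_map]
        exact List.Pairwise.imp_of_mem (fun {p q} hp hq h =>
          key p (List.mem_append.2 (Or.inr hp)) q (List.mem_append.2 (Or.inr hq)) h) hWpw.2.1
      · intro p hp q hq
        obtain ⟨q', hq', rfl⟩ := List.mem_map.1 hq
        exact key2 p (List.mem_append.2 (Or.inr hp)) q' (List.mem_append.2 (Or.inr hq'))
      · intro p hp q hq
        rcases List.mem_append.1 hp with hp | hp
        · rcases List.mem_append.1 hq with hq | hq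
          · exact hNpw.2.2 p hp q hq
          · obtain ⟨q', hq', rfl⟩ := List.mem_map.1 hq
            exact key2 p (List.mem_append.2 (Or.inl hp)) q' (List.mem_append.2 (Or.inr hq'))
        · obtain ⟨p', hp', rfl⟩ := List.mem_map.1 hp
          rcases List.mem_append.1 hq with hq | hq
          · -- TW versus LN
            intro hh
            have hmem := hN.mem (l + 1) q (List.mem_append.2 (Or.inr hq))
            have hmem' := hW.mem l p' (List.mem_append.2 (Or.inl hp'))
            have hyq := (hN.not_mem hy (List.mem_append.2 (Or.inr hq))).2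
            have hsub : q.2 ⊆ p'.1 := by
              intro x hx
              rcases mem_insert.1 (hh hx) with h1 | h1
              · exact absurd (h1 ▸ hx) hyq
              · exact h1
            have heq : q.2 = p'.1 := eq_of_subset_of_card_le hsub (by
              rw [hmem'.2.2.1, hmem.2.2.2])
            exact hmark l p' hp' q hq heq
          · obtain ⟨q', hq', rfl⟩ := List.mem_map.1 hq
            exact key p' (List.mem_append.2 (Or.inl hp')) q' (List.mem_append.2 (Or.inr hq'))
              (hWpw.2.2 p' hp' q' hq')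
  · -- chain
    intro l
    cases l with
    | zero => exact hN.chain 0
    | succ l =>
      show List.IsChain _ (LN (l + 1) ++ (LW l).map (ins y))
      refine List.isChain_append.2 ⟨hN.chain (l + 1), ?_, ?_⟩
      · rw [List.isChain_map]
        exact (hW.chain l).imp fun p q h => insert_subset_insert y h
      · intro p hp q hq
        rw [List.head?_map, Option.mem_map] at hq
        obtain ⟨q', hq', rfl⟩ := hq
        rw [hE (l + 1) p hp]
        simp only [ins]
        rw [hW.head l q' hq']
        exact subset_insert _ _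
  · -- cross
    intro l p hp q hq
    have hqy : ∀ q' ∈ TW l ++ LW l, ∀ p : Pr, y ∉ p.1 → (ins y q').2 ≠ p.1 := by
      intro q' _ p hyp e
      exact hyp (e ▸ mem_insert_self y _)
    rcases hcases l q hq with hq1 | ⟨q', hq1, rfl⟩
    · cases l with
      | zero => exact hN.cross 0 p hp q hq1
      | succ l =>
        rcases hcases l p hp with hp1 | ⟨p', hp1, rfl⟩
        · exact hN.cross (l + 1) p hp1 q hq1
        · intro e
          exact (hN.not_mem hy hq1).2 (e ▸ mem_insert_self y _)
    · cases l with
      | zero => exact hqy q' hq1 p (hN.not_mem hy hp).1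
      | succ l =>
        rcases hcases l p hp with hp1 | ⟨p', hp1, rfl⟩
        · exact fun e => (hN.not_mem hy hp1).1 (e ▸ mem_insert_self y _)
        · intro e
          exact hW.cross l p' hp1 q' hq1
            ((insert_inj' (hW.not_mem hyc hq1).2 (hW.not_mem hyc hp1).1).1 e)
  · -- len
    intro l
    have hbl : (b ++ [y]).length - 1 = (b.length - 1) + 1 := by simp; omega
    rw [hbl]
    cases l with
    | zero =>
      have := hN.len 0
      simpa [Ex.comp] using this
    | succ l =>
      have h1 := hN.len (l + 1)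
      have h2 := hW.len l
      rw [hlen] at h2
      rw [Nat.choose_succ_succ']
      simp only [Ex.comp, List.length_append, List.length_map]
      omega
  · -- tlen
    intro l
    cases l with
    | zero => exact hN.tlen 0
    | succ l =>
      simp only [Ex.comp, List.length_append, List.length_map]
      rcases hdis l with h | h
      · rw [h]; simpa using hW.tlen l
      · rw [h]; simpa using hN.tlen (l + 1)
  · -- head
    intro l
    cases l with
    | zero =>
      intro p hp
      rw [hN.head 0 p hp]
      rw [List.take_append_of_le_length (by omega)]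
    | succ l =>
      intro p hp
      rcases Nat.lt_or_ge (l + 1) b.length with hl | hl
      · have hne' := hne (l + 1) hl
        have hp' : p ∈ (LN (l + 1)).head? := by
          obtain ⟨a, t, hat⟩ := List.exists_cons_of_ne_nil hne'
          simpa [Ex.comp, hat] using hp
        rw [hN.head (l + 1) p hp', List.take_append_of_le_length (by omega)]
      · have h1 := hN.len (l + 1)
        rw [Nat.choose_eq_zero_of_lt (by omega)] at h1
        have hnil : LN (l + 1) = [] := List.length_eq_zero_iff.1 (by omega)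
        have hp' : p ∈ ((LW l).map (ins y)).head? := by
          simpa [Ex.comp, hnil] using hp
        rw [List.head?_map, Option.mem_map] at hp'
        obtain ⟨p', hp', rfl⟩ := hp'
        simp only [ins]
        rw [hW.head l p' hp', List.take_of_length_le (by omega), List.take_of_length_le (by simp; omega),
          hcb]
        ext x; simp

theorem Ends.comp {a b : List ℕ} {y : ℕ} {TN LN LW : Fam} (hN : TPV b TN LN) (hE : Ends a LW)
    (h : ∀ l, LN (l + 1) ≠ [] → LW l ≠ []) : Ends (y :: a) (comp y LN LW) := by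
  intro l p hp
  cases l with
  | zero =>
    have hp' : p ∈ LN 0 := List.mem_of_mem_getLast? hp
    have := (hN.mem 0 p (List.mem_append.2 (Or.inr hp'))).2.2.2
    simpa using this
  | succ l =>
    have hp1 : p ∈ (LN (l + 1) ++ (LW l).map (ins y)).getLast? := hp
    by_cases hW : LW l = []
    · have hLN : LN (l + 1) = [] := by
        by_contra hne; exact h l hne hW
      simp [hW, hLN] at hp1
    · have : ((LW l).map (ins y)) ≠ [] := by simpa using hW
      rw [List.getLast?_append_of_ne_nil _ this, List.getLast?_map, Option.mem_map] at hp1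
      obtain ⟨p', hp', rfl⟩ := hp1
      simp only [ins, List.take_succ_cons, List.toFinset_cons]
      rw [hE l p' hp']

private theorem PV.length_eq {b a : List ℕ} {L : Fam} (h : PV b a L) (l : ℕ) :
    (L l).length = (b.length - 1).choose l := by
  have := h.tpv.len l
  simpa [nil] using this

theorem PV.ne_nil {b a : List ℕ} {L : Fam} (h : PV b a L) {l : ℕ} (hl : l < b.length) :
    L l ≠ [] := by
  intro h0
  have := h.length_eq l
  rw [h0] at this
  have hpos : 0 < (b.length - 1).choose l := Nat.choose_pos (by omega)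
  simp at this
  omega

private theorem comp_nil (y : ℕ) : comp y nil nil = nil := by
  funext l
  cases l <;> simp [comp, nil]

theorem PV.comp {b c a : List ℕ} {y : ℕ} {N Y : Fam} (hN : PV b c N) (hY : PV c a Y)
    (hy : y ∉ b) (hb : b ≠ []) : PV (b ++ [y]) (y :: a) (comp y N Y) := by
  have hlen : c.length = b.length := hN.perm.length_eq
  refine ⟨?_, ?_, ?_⟩
  · have := TPV.comp (y := y) hN.tpv hN.ends hY.tpv hN.perm hy hb (fun l hl => hN.ne_nil hl)
      (fun l => Or.inl rfl) (by simp [nil])
    rwa [comp_nil] at this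
  · refine Ends.comp hN.tpv hY.ends ?_
    intro l hl
    apply hY.ne_nil
    have h1 := hN.length_eq (l + 1)
    have h2 : 0 < (N (l + 1)).length := List.length_pos_iff.2 hl
    rw [h1] at h2
    have := Nat.pos_iff_ne_zero.1 h2
    have h3 : l + 1 ≤ b.length - 1 := by
      by_contra hc
      exact this (Nat.choose_eq_zero_of_lt (by omega))
    omega
  · have h1 : (y :: a).Perm (y :: b) := (hY.perm.trans hN.perm).cons y
    exact h1.trans (List.perm_append_singleton y b).symm

theorem avoid_comp_of_not_mem {y : ℕ} {N Y : Fam} {M : Finset ℕ} (hM : y ∉ M) (h : Avoid N M) :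
    Avoid (comp y N Y) M := by
  intro l p hp
  cases l with
  | zero => exact h 0 p hp
  | succ l =>
    rcases mem_comp_succ.1 hp with hp | ⟨p', hp, rfl⟩
    · exact h (l + 1) p hp
    · intro e
      exact hM (e ▸ mem_insert_self y _)

theorem avoid_comp_of_mem {b c : List ℕ} {y : ℕ} {N Y : Fam} {M : Finset ℕ} (hN : PV b c N)
    (hy : y ∉ b) (hM : y ∈ M) (h : Avoid Y (M.erase y)) (hY : ∀ l, ∀ p ∈ Y l, y ∉ p.2) :
    Avoid (comp y N Y) M := by
  have hn : ∀ l, ∀ p ∈ N l, p.2 ≠ M := by
    intro l p hp e
    exact (hN.tpv.not_mem hy (List.mem_append.2 (Or.inr hp))).2 (e ▸ hM)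
  intro l p hp
  cases l with
  | zero => exact hn 0 p hp
  | succ l =>
    rcases mem_comp_succ.1 hp with hp1 | ⟨p', hp1, rfl⟩
    · exact hn (l + 1) p hp1
    · intro e
      apply h l p' hp1
      rw [← e]
      exact (erase_insert (hY l p' hp1)).symm

theorem TPV.det0 {b : List ℕ} {T L : Fam} (h : TPV b T L) (h0 : T 0 = []) :
    TPV b (det0T T L) (det0L L) := by
  have key : ∀ l, det0T T L l ++ det0L L l = T l ++ L l := by
    intro l
    by_cases hl : l = 0
    · subst hl; simp [det0T, det0L, h0]
    · simp [det0T, det0L, hl]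
  refine ⟨h.nd, ?_, ?_, ?_, ?_, ?_, ?_, ?_⟩
  · intro l; rw [key l]; exact h.mem l
  · intro l; rw [key l]; exact h.pw l
  · intro l
    by_cases hl : l = 0
    · simp [det0L, hl]
    · simpa [det0L, hl] using h.chain l
  · intro l; rw [key l, key (l + 1)]; exact h.cross l
  · intro l
    rw [← List.length_append, key l, List.length_append]; exact h.len l
  · intro l
    by_cases hl : l = 0
    · subst hl
      have := h.len 0
      simp [h0] at this
      simp [det0T, this]
    · simpa [det0T, hl] using h.tlen l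
  · intro l
    by_cases hl : l = 0
    · simp [det0L, hl]
    · simpa [det0L, hl] using h.head l

/-! ## The cover lemma -/

private theorem TPV.cover {b : List ℕ} {T L : Fam} (h : TPV b T L) (hb : b ≠ []) {l : ℕ} {M : Finset ℕ}
    (hM : M ⊆ b.toFinset) (hc : M.card = l + 1) :
    (∃ p ∈ T (l + 1) ++ L (l + 1), p.2 = M) ∨ (∃ p ∈ T l ++ L l, p.1 = M) := by
  classical
  set A : List (Finset ℕ) := (T (l + 1) ++ L (l + 1)).map Prod.snd with hA
  set B : List (Finset ℕ) := (T l ++ L l).map Prod.fst with hB
  have hAn : A.Nodup := by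
    rw [hA, List.Nodup, List.pairwise_map]
    refine List.Pairwise.imp_of_mem ?_ (h.pw (l + 1))
    intro p q hp hq hpq e
    exact hpq (e ▸ (h.mem (l + 1) p hp).1)
  have hBn : B.Nodup := by
    rw [hB, List.Nodup, List.pairwise_map]
    refine List.Pairwise.imp_of_mem ?_ (h.pw l)
    intro p q hp hq hpq e
    exact hpq (e ▸ (h.mem l q hq).1)
  have hdis : Disjoint A.toFinset B.toFinset := by
    rw [Finset.disjoint_left]
    intro X hX hX'
    obtain ⟨p, hp, rfl⟩ := List.mem_map.1 (List.mem_toFinset.1 hX)
    obtain ⟨q, hq, e⟩ := List.mem_map.1 (List.mem_toFinset.1 hX')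
    exact h.cross l q hq p hp e.symm
  have hsub : A.toFinset ∪ B.toFinset ⊆ powersetCard (l + 1) b.toFinset := by
    intro X hX
    rw [mem_powersetCard]
    rcases mem_union.1 hX with hX | hX
    · obtain ⟨p, hp, rfl⟩ := List.mem_map.1 (List.mem_toFinset.1 hX)
      obtain ⟨h1, h2, -, h4⟩ := h.mem (l + 1) p hp
      exact ⟨h1.trans h2, h4⟩
    · obtain ⟨p, hp, rfl⟩ := List.mem_map.1 (List.mem_toFinset.1 hX)
      obtain ⟨-, h2, h3, -⟩ := h.mem l p hp
      exact ⟨h2, h3⟩
  have hcard : (A.toFinset ∪ B.toFinset).card = (powersetCard (l + 1) b.toFinset).card := by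
    rw [card_union_of_disjoint hdis, List.toFinset_card_of_nodup hAn,
      List.toFinset_card_of_nodup hBn, card_powersetCard, List.toFinset_card_of_nodup h.nd, hA, hB,
      List.length_map, List.length_map, List.length_append, List.length_append, h.len, h.len]
    obtain ⟨n, hn⟩ := Nat.exists_eq_succ_of_ne_zero (List.length_pos_iff.2 hb).ne'
    rw [hn, Nat.succ_sub_one, Nat.succ_eq_add_one, Nat.choose_succ_succ' n l]
    omega
  have heq := eq_of_subset_of_card_le hsub hcard.ge
  have hMm : M ∈ A.toFinset ∪ B.toFinset := by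
    rw [heq, mem_powersetCard]; exact ⟨hM, hc⟩
  rcases mem_union.1 hMm with hX | hX
  · obtain ⟨p, hp, e⟩ := List.mem_map.1 (List.mem_toFinset.1 hX)
    exact Or.inl ⟨p, hp, e⟩
  · obtain ⟨p, hp, e⟩ := List.mem_map.1 (List.mem_toFinset.1 hX)
    exact Or.inr ⟨p, hp, e⟩

/-- cover lemma for plain families -/
private theorem PV.cover {b a : List ℕ} {L : Fam} (h : PV b a L) (hb : b ≠ []) {l : ℕ} {M : Finset ℕ}
    (hM : M ⊆ b.toFinset) (hc : M.card = l + 1) :
    (∃ p ∈ L (l + 1), p.2 = M) ∨ (∃ p ∈ L l, p.1 = M) := by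
  simpa [nil] using h.tpv.cover hb hM hc

private theorem PV.mem' {b a : List ℕ} {L : Fam} (h : PV b a L) (l : ℕ) (p : Pr) (hp : p ∈ L l) :
    p.2 ⊆ p.1 ∧ p.1 ⊆ b.toFinset ∧ p.1.card = l + 1 ∧ p.2.card = l :=
  h.tpv.mem l p (by simpa [nil] using hp)

private theorem PV.pw' {b a : List ℕ} {L : Fam} (h : PV b a L) (l : ℕ) :
    (L l).Pairwise (fun p q => ¬ q.2 ⊆ p.1) := by simpa [nil] using h.tpv.pw l

private theorem PV.cross' {b a : List ℕ} {L : Fam} (h : PV b a L) (l : ℕ) :
    ∀ p ∈ L l, ∀ q ∈ L (l + 1), q.2 ≠ p.1 := by simpa [nil] using h.tpv.cross l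

private theorem exists_pred {α : Type*} {R S : α → α → Prop} {p : α} :
    ∀ {l : List α} {a : α}, (a :: l).IsChain R → (a :: l).Pairwise S → p ∈ l →
      ∃ p0 ∈ a :: l, R p0 p ∧ S p0 p := by
  intro l
  induction l with
  | nil => intro a _ _ h; simp at h
  | cons b l ih =>
    intro a hc hp h
    rw [List.isChain_cons_cons] at hc
    rw [List.pairwise_cons] at hp
    rcases List.mem_cons.1 h with rfl | h
    · exact ⟨a, by simp, hc.1, hp.1 _ (by simp)⟩
    · obtain ⟨p0, h0, h1, h2⟩ := ih hc.2 hp.2 h
      exact ⟨p0, List.mem_cons_of_mem _ h0, h1, h2⟩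

/-- level 0 of a plain family -/
private theorem PV.level0 {q : ℕ} {b' a : List ℕ} {L : Fam} (h : PV (q :: b') a L) :
    L 0 = [({q}, ∅)] := by
  have h1 : (L 0).length = 1 := by rw [h.length_eq 0]; simp
  obtain ⟨p, hp⟩ := List.length_eq_one_iff.1 h1
  have h2 := h.tpv.head 0 p (by simp [hp])
  have h3 := (h.mem' 0 p (by simp [hp])).2.2.2
  rw [hp]
  congr 1
  ext1
  · rw [h2]; simp
  · exact card_eq_zero.1 h3

/-- structure of level 1 of a plain family: the first peak is `{b1,b2}`, the first valley `{b2}`,
the second peak `{b2,b3}`. -/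
private theorem PV.level1 {q r x : ℕ} {b' a : List ℕ} {L : Fam} (h : PV (q :: r :: x :: b') a L)
    (hb' : b' ≠ []) :
    ∃ v rest, L 1 = (({q, r} : Finset ℕ), ({r} : Finset ℕ)) :: (({r, x} : Finset ℕ), v) :: rest := by
  have hnd := h.tpv.nd
  have hqr : q ≠ r := by
    rintro rfl; simp at hnd
  have hqx : q ≠ x := by
    rintro rfl; simp at hnd
  have hrx : r ≠ x := by
    rintro rfl; simp at hnd
  have hL0 := h.level0
  have hblen : 0 < b'.length := List.length_pos_iff.2 hb'
  have hlen1 : (L 1).length = b'.length + 2 := by rw [h.length_eq 1]; simp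
  -- no valley of level 1 is {q}
  have hnoq : ∀ p ∈ L 1, p.2 ≠ {q} := by
    intro p hp
    exact h.cross' 0 ({q}, ∅) (by simp [hL0]) p hp
  obtain ⟨p1, l1, hl1⟩ : ∃ p1 l1, L 1 = p1 :: l1 := by
    cases hL : L 1 with
    | nil => rw [hL] at hlen1; simp at hlen1
    | cons a l => exact ⟨a, l, rfl⟩
  obtain ⟨p2, l2, hl2⟩ : ∃ p2 l2, l1 = p2 :: l2 := by
    cases hL : l1 with
    | nil => rw [hl1, hL] at hlen1; simp at hlen1
    | cons a l => exact ⟨a, l, rfl⟩
  subst hl2
  have hp1m := h.mem' 1 p1 (by simp [hl1])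
  have hp11 : p1.1 = {q, r} := by
    rw [h.tpv.head 1 p1 (by simp [hl1])]; simp
  have singleton_cases : ∀ (s t : ℕ) (X : Finset ℕ), X ⊆ {s, t} → X.card = 1 → X = {s} ∨ X = {t} := by
    intro s t X hX hc
    obtain ⟨z, rfl⟩ := card_eq_one.1 hc
    have := hX (mem_singleton_self z)
    simp only [mem_insert, mem_singleton] at this
    rcases this with rfl | rfl
    · exact Or.inl rfl
    · exact Or.inr rfl
  have hp12 : p1.2 = {r} := by
    rcases singleton_cases q r p1.2 (hp11 ▸ hp1m.1) hp1m.2.2.2 with e | e
    · exact absurd e (hnoq p1 (by simp [hl1]))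
    · exact e
  have hch := h.tpv.chain 1
  have hpw := h.pw' 1
  rw [hl1] at hch hpw
  -- valleys after the first one are not {r}
  have hnor : ∀ p ∈ p2 :: l2, p.2 ≠ {r} := by
    intro p hp e
    have := (List.pairwise_cons.1 hpw).1 p hp
    apply this
    rw [e, hp11]; simp
  have hsubb : ({r, x} : Finset ℕ) ⊆ (q :: r :: x :: b').toFinset := by
    intro z; simp only [mem_insert, mem_singleton, List.toFinset_cons]; tauto
  have hsubb' : ({q, x} : Finset ℕ) ⊆ (q :: r :: x :: b').toFinset := by
    intro z; simp only [mem_insert, mem_singleton, List.toFinset_cons]; tauto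
  have hpeak : ∃ p ∈ L 1, p.1 = {r, x} := by
    rcases h.cover (by simp) (l := 1) hsubb (card_pair hrx) with ⟨p, hp, e⟩ | hh
    · exfalso
      obtain ⟨u1, m1, hm1⟩ : ∃ u1 m1, L 2 = u1 :: m1 := by
        cases hL : L 2 with
        | nil => exact absurd hL (h.ne_nil (by simp))
        | cons a l => exact ⟨a, l, rfl⟩
      have hu1 : u1.1 = {q, r, x} := by
        rw [h.tpv.head 2 u1 (by simp [hm1])]; simp
      have hpw2 := h.pw' 2
      rw [hm1] at hpw2
      have hfirst : ∀ p ∈ L 2, p.2 ⊆ u1.1 → p = u1 := by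
        intro p hp hs
        rw [hm1] at hp
        rcases List.mem_cons.1 hp with e | hp
        · exact e
        · exact absurd hs ((List.pairwise_cons.1 hpw2).1 p hp)
      have hpu : p = u1 := hfirst p hp (by
        rw [e, hu1]; intro z; simp only [mem_insert, mem_singleton]; tauto)
      rcases h.cover (by simp) (l := 1) hsubb' (card_pair hqx) with ⟨p', hp', e'⟩ | ⟨p', hp', e'⟩
      · have hpu' : p' = u1 := hfirst p' hp' (by
          rw [e', hu1]; intro z; simp only [mem_insert, mem_singleton]; tauto)
        rw [hpu] at e; rw [hpu', e] at e'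
        have : q ∈ ({r, x} : Finset ℕ) := e' ▸ mem_insert_self q _
        simp only [mem_insert, mem_singleton] at this
        tauto
      · rw [hl1] at hp'
        rcases List.mem_cons.1 hp' with e1 | hp1
        · rw [e1, hp11] at e'
          have : r ∈ ({q, x} : Finset ℕ) := e' ▸ (by simp)
          simp only [mem_insert, mem_singleton] at this
          rcases this with h' | h'
          · exact hqr h'.symm
          · exact hrx h'
        · obtain ⟨p0, hp0, hR, hS⟩ := exists_pred hch hpw hp1
          have hm0 := h.mem' 1 p0 (by rw [hl1]; exact hp0)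
          have hm' := h.mem' 1 p' (by rw [hl1]; exact hp')
          have h0x : p0.2 = {x} := by
            rcases singleton_cases q x p0.2 (e' ▸ hR) hm0.2.2.2 with e2 | e2
            · exact absurd e2 (hnoq p0 (by rw [hl1]; exact hp0))
            · exact e2
          have h'x : p'.2 = {x} := by
            rcases singleton_cases q x p'.2 (e' ▸ hm'.1) hm'.2.2.2 with e2 | e2
            · exact absurd e2 (hnoq p' (by rw [hl1]; exact hp'))
            · exact e2
          apply hS
          rw [h'x, ← h0x]
          exact hm0.1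
    · exact hh
  have hp21 : p2.1 = {r, x} := by
    obtain ⟨p, hp, e⟩ := hpeak
    rw [hl1] at hp
    rcases List.mem_cons.1 hp with e1 | hp1
    · exfalso
      rw [e1, hp11] at e
      have : q ∈ ({r, x} : Finset ℕ) := e ▸ mem_insert_self q _
      simp only [mem_insert, mem_singleton] at this
      tauto
    · rcases List.mem_cons.1 hp1 with e1 | hp2
      · rw [← e1, e]
      · exfalso
        obtain ⟨p0, hp0, hR, hS⟩ := exists_pred (List.isChain_cons_cons.1 hch).2
          (List.pairwise_cons.1 hpw).2 hp2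
        have hm0 := h.mem' 1 p0 (by rw [hl1]; exact List.mem_cons_of_mem _ hp0)
        have hmp := h.mem' 1 p (by rw [hl1]; exact hp)
        have h0x : p0.2 = {x} := by
          rcases singleton_cases r x p0.2 (e ▸ hR) hm0.2.2.2 with e2 | e2
          · exact absurd e2 (hnor p0 hp0)
          · exact e2
        have hpx : p.2 = {x} := by
          rcases singleton_cases r x p.2 (e ▸ hmp.1) hmp.2.2.2 with e2 | e2
          · exact absurd e2 (hnor p hp1)
          · exact e2
        apply hS
        rw [hpx, ← h0x]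
        exact hm0.1
  refine ⟨p2.2, l2, ?_⟩
  rw [hl1, ← hp11, ← hp12, ← hp21]

/-- the T-modification -/
theorem PV.tmod {q r x : ℕ} {b' a : List ℕ} {L : Fam} (h : PV (q :: r :: x :: b') a L)
    (hb' : b' ≠ []) :
    TPV (r :: x :: q :: b') (tmodT q r) (tmodL r L) ∧ Ends a (tmodL r L) ∧
      (∀ l, l < b'.length + 3 → tmodL r L l ≠ []) := by
  have hnd := h.tpv.nd
  have hqr : q ≠ r := by
    rintro rfl; simp at hnd
  have hL0 := h.level0
  obtain ⟨v, rest, hL1⟩ := h.level1 hb'
  have hblen : 0 < b'.length := List.length_pos_iff.2 hb'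
  have hlen1 : (L 1).length = b'.length + 2 := by rw [h.length_eq 1]; simp
  have hrest : rest ≠ [] := by
    intro h0
    rw [hL1, h0] at hlen1
    simp only [List.length_cons, List.length_nil] at hlen1
    omega
  have hperm : (r :: x :: q :: b').Perm (q :: r :: x :: b') := by
    have h1 : (x :: q :: b').Perm (q :: x :: b') := List.Perm.swap _ _ _
    exact (h1.cons r).trans (List.Perm.swap _ _ _)
  have hfs : (r :: x :: q :: b').toFinset = (q :: r :: x :: b').toFinset := toFinset_perm hperm
  -- levels
  have e0 : tmodT q r 0 = [] ∧ tmodL r L 0 = [({r}, ∅)] := by simp [tmodT, tmodL]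
  have e1 : tmodT q r 1 = [({q, r}, {q})] ∧ tmodL r L 1 = (({r, x} : Finset ℕ), v) :: rest := by
    simp [tmodT, tmodL, hL1]
  have e2 : ∀ l, 2 ≤ l → tmodT q r l = [] ∧ tmodL r L l = L l := by
    intro l hl
    have h0 : l ≠ 0 := by omega
    have h1 : l ≠ 1 := by omega
    simp [tmodT, tmodL, h0, h1]
  have hlt : ∀ l, l = 0 ∨ l = 1 ∨ 2 ≤ l := by intro l; omega
  have hL1m : ∀ p ∈ (({r, x} : Finset ℕ), v) :: rest, p ∈ L 1 := by
    intro p hp; rw [hL1]; exact List.mem_cons_of_mem _ hp
  have hpw1 := h.pw' 1
  rw [hL1] at hpw1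
  refine ⟨⟨?_, ?_, ?_, ?_, ?_, ?_, ?_, ?_⟩, ?_, ?_⟩
  · exact hperm.nodup_iff.2 hnd
  · -- mem
    intro l p hp
    rcases hlt l with rfl | rfl | hl
    · rw [e0.1, e0.2] at hp
      have hpe : p = ({r}, ∅) := by simpa using hp
      rw [hpe]
      refine ⟨by simp, by simp, by simp, by simp⟩
    · rw [e1.1, e1.2] at hp
      rcases List.mem_append.1 hp with hp | hp
      · have hpe : p = ({q, r}, {q}) := by simpa using hp
        rw [hpe]
        refine ⟨by simp, ?_, card_pair hqr, by simp⟩
        intro z; simp only [mem_insert, mem_singleton, List.toFinset_cons]; tauto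
      · rw [hfs]; exact h.mem' 1 p (hL1m p hp)
    · rw [(e2 l hl).1, (e2 l hl).2] at hp
      rw [hfs]; exact h.mem' l p (by simpa using hp)
  · -- pw
    intro l
    rcases hlt l with rfl | rfl | hl
    · rw [e0.1, e0.2]; simp
    · rw [e1.1, e1.2]
      rw [List.singleton_append, List.pairwise_cons]
      rw [List.pairwise_cons] at hpw1
      exact hpw1
    · rw [(e2 l hl).1, (e2 l hl).2]; simpa using h.pw' l
  · -- chain
    intro l
    rcases hlt l with rfl | rfl | hl
    · rw [e0.2]; simp
    · rw [e1.2]
      have := h.tpv.chain 1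
      rw [hL1, List.isChain_cons_cons] at this
      exact this.2
    · rw [(e2 l hl).2]; exact h.tpv.chain l
  · -- cross
    intro l p hp p' hp'
    rcases hlt l with rfl | rfl | hl
    · rw [e0.1, e0.2] at hp
      have hpe : p = ({r}, ∅) := by simpa using hp
      rw [hpe]
      rw [e1.1, e1.2] at hp'
      rcases List.mem_append.1 hp' with hp' | hp'
      · have hpe' : p' = ({q, r}, {q}) := by simpa using hp'
        rw [hpe']
        intro e
        exact hqr (by simpa using e)
      · intro e
        have := (List.pairwise_cons.1 hpw1).1 p' hp'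
        apply this
        rw [e]; simp
    · rw [e1.1, e1.2] at hp
      rw [(e2 2 le_rfl).1, (e2 2 le_rfl).2] at hp'
      have hp'' : p' ∈ L 2 := by simpa using hp'
      rcases List.mem_append.1 hp with hp | hp
      · have hpe : p = ({q, r}, {q}) := by simpa using hp
        rw [hpe]
        exact h.cross' 1 (({q, r} : Finset ℕ), ({r} : Finset ℕ)) (by simp [hL1]) p' hp''
      · exact h.cross' 1 p (hL1m p hp) p' hp''
    · rw [(e2 l hl).1, (e2 l hl).2] at hp
      rw [(e2 (l + 1) (by omega)).1, (e2 (l + 1) (by omega)).2] at hp'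
      exact h.cross' l p (by simpa using hp) p' (by simpa using hp')
  · -- len
    intro l
    have hl0 : (r :: x :: q :: b').length = (q :: r :: x :: b').length := rfl
    rw [hl0, ← h.length_eq l]
    rcases hlt l with rfl | rfl | hl
    · rw [e0.1, e0.2, hL0]; rfl
    · rw [e1.1, e1.2, hL1]; simp; omega
    · rw [(e2 l hl).1, (e2 l hl).2]; simp
  · -- tlen
    intro l
    rcases hlt l with rfl | rfl | hl
    · rw [e0.1]; simp
    · rw [e1.1]; simp
    · rw [(e2 l hl).1]; simp
  · -- head
    intro l p hp
    rcases hlt l with rfl | rfl | hl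
    · rw [e0.2] at hp
      have hpe : p = ({r}, ∅) := by simpa [eq_comm] using hp
      rw [hpe]; simp
    · rw [e1.2] at hp
      have hpe : p = ({r, x}, v) := by simpa [eq_comm] using hp
      rw [hpe]; simp
    · rw [(e2 l hl).2] at hp
      rw [h.tpv.head l p hp]
      obtain ⟨k, rfl⟩ : ∃ k, l = k + 2 := ⟨l - 2, by omega⟩
      ext z
      simp only [List.take_succ_cons, List.toFinset_cons, mem_insert]
      tauto
  · -- ends
    intro l p hp
    rcases hlt l with rfl | rfl | hl
    · rw [e0.2] at hp
      have hpe : p = ({r}, ∅) := by simpa [eq_comm] using hp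
      rw [hpe]; simp
    · rw [e1.2] at hp
      apply h.ends 1 p
      rw [hL1, List.getLast?_cons_cons]
      exact hp
    · rw [(e2 l hl).2] at hp
      exact h.ends l p hp
  · -- nonempty
    intro l hl
    rcases hlt l with rfl | rfl | hl2
    · rw [e0.2]; simp
    · rw [e1.2]; simp
    · rw [(e2 l hl2).2]
      exact h.ne_nil (by simp only [List.length_cons]; omega)

end Pool.Agent.Lib.MP_ad4d1c_co_h48.Ex
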