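import Pool.Agent.Lib.MP_ad4d1c_co_h87.ExWT
import Pool.Agent.Lib.MP_ad4d1c_co_h70.ExVG
import Pool.Agent.Lib.MP_ad4d1c_co_h38.ExD

set_option autoImplicit false

/-!
# Module WT of the exact Felsner–Trotter theorem: final statements
-/

namespace Pool.Agent.Lib.MP_ad4d1c_co_h48.Ex

open Finset

theorem wt_step {nodd : Bool} {q1 r1 q2 r2 x w Ap δ : ℕ} {D b : List ℕ} {T L : Fam}
    (h : WT nodd q1 r1 q2 r2 x w Ap D b T L) (hAp : Ap = r1 ∨ Ap = r2) (hD : 5 ≤ D.length)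
    (hδ : δ ∉ b) : ∃ b' T' L', WT nodd q2 r2 q1 r1 x w Ap (δ :: D) b' T' L' :=
  wt_step_of (fun nodd => vgen nodd) h hAp hD hδ

theorem wt_exists (nodd : Bool) {q1 r1 q2 r2 x w Ap : ℕ} {D : List ℕ} (hD : 5 ≤ D.length)
    (hnd : (q1 :: r1 :: q2 :: r2 :: x :: w :: D).Nodup)
    (hAp : Ap = if (decide (D.length % 2 = 1)) = nodd then r2 else r1) :
    ∃ b T L, WT nodd q1 r1 q2 r2 x w Ap D b T L := by
  refine wt_exists_of (fun nodd => vgen nodd) ?_ nodd hD hnd hAp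
  intro nodd q1 r1 q2 r2 x w d1 d2 d3 d4 d5 hnd
  cases nodd
  · obtain ⟨T, L, h⟩ := base_wt_even hnd
    exact ⟨_, T, L, h⟩
  · obtain ⟨T, L, h⟩ := base_wt_odd hnd
    exact ⟨_, T, L, h⟩

end Pool.Agent.Lib.MP_ad4d1c_co_h48.Ex
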