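import Pool.Agent.Lib.MP_ad4d1c_co_h87.ExC1

set_option autoImplicit false

/-!
# Module WT of the exact Felsner–Trotter theorem: the induction on the W-side

`wt_step_of` is the induction step and `wt_exists_of` the resulting existence theorem, relative to
the general construction `vgen` and to the base cases, which are proved in other files.
-/

namespace Pool.Agent.Lib.MP_ad4d1c_co_h48.Ex

open Finset

/-- the peak of a mark after adding `δ` in front of the chain and swapping the two pairs -/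
private theorem Pk_cons {nodd : Bool} {q1 r1 q2 r2 x w Ap δ : ℕ} {D : List ℕ}
    (hnd : (δ :: q1 :: r1 :: q2 :: r2 :: x :: w :: D).Nodup) (hAp : Ap = r1 ∨ Ap = r2) {l : ℕ}
    (hl : 1 ≤ l) :
    Pk nodd q2 r2 q1 r1 x w Ap (δ :: D) (l + 1) =
      insert δ (Pk nodd q1 r1 q2 r2 x w Ap D l) := by
  have hS : (q2 :: r2 :: q1 :: r1 :: x :: w :: (δ :: D)).toFinset =
      insert δ (q1 :: r1 :: q2 :: r2 :: x :: w :: D).toFinset := by
    ext a; simp only [List.mem_toFinset, List.mem_cons, mem_insert]; tauto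
  have hδ : δ ≠ q1 ∧ δ ≠ r1 ∧ δ ≠ q2 ∧ δ ≠ r2 ∧ δ ≠ x ∧ δ ≠ w := by
    have := List.nodup_cons.1 hnd
    simp only [List.mem_cons, not_or] at this
    exact ⟨this.1.1, this.1.2.1, this.1.2.2.1, this.1.2.2.2.1, this.1.2.2.2.2.1,
      this.1.2.2.2.2.2.1⟩
  have hr : r1 ≠ r2 ∧ r1 ≠ q2 ∧ r2 ≠ q1 := by
    have := (List.nodup_cons.1 hnd).2
    simp only [List.nodup_cons, List.mem_cons, not_or] at this
    exact ⟨this.2.1.2.1, this.2.1.1, fun e => this.1.2.2.1 e.symm⟩
  have hzz : zz Ap q2 r2 q1 r1 = zz Ap q1 r1 q2 r2 := by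
    unfold zz
    rcases hAp with rfl | rfl
    · rw [if_pos (Or.inl rfl), if_neg]
      rintro (h | h)
      · exact hr.1 h
      · exact hr.2.1 h
    · rw [if_neg, if_pos (Or.inl rfl)]
      rintro (h | h)
      · exact hr.1 h.symm
      · exact hr.2.2 h
  have hzδ : δ ∉ insert w (zz Ap q1 r1 q2 r2) := by
    unfold zz
    split_ifs <;> simp [hδ.1, hδ.2.1, hδ.2.2.1, hδ.2.2.2.1, hδ.2.2.2.2.2]
  have hApδ : δ ≠ Ap := by
    rcases hAp with rfl | rfl
    · exact hδ.2.1
    · exact hδ.2.2.2.1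
  have hsd : ∀ (A C : Finset ℕ), δ ∉ C → (insert δ A) \ C = insert δ (A \ C) := by
    intro A C hC
    exact insert_sdiff_of_notMem A hC
  have h1 : δ ∉ ({Ap, x, w} : Finset ℕ) := by
    simp [hApδ, hδ.2.2.2.2.1, hδ.2.2.2.2.2]
  have h2 : δ ∉ ({Ap, w} : Finset ℕ) := by simp [hApδ, hδ.2.2.2.2.2]
  have h3 : δ ∉ ({w} : Finset ℕ) := by simp [hδ.2.2.2.2.2]
  obtain ⟨k, rfl⟩ : ∃ k, l = k + 1 := ⟨l - 1, by omega⟩
  unfold Pk
  simp only [hS, List.length_cons, hzz]
  by_cases hl1 : k + 1 ≤ D.length + 1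
  · rw [if_pos (show k + 1 + 1 ≤ D.length + 1 + 1 by omega), if_pos hl1]
    have e1 : (δ :: D).take (k + 1 + 1 - 1) = δ :: D.take k := by
      simp
    rw [e1, List.toFinset_cons, insert_union]
    simp only [Nat.add_sub_cancel]
    congr 2
    rcases Nat.mod_two_eq_zero_or_one k with hk | hk
    · have : (k + 1) % 2 ≠ 0 := by omega
      rw [if_neg this, if_pos hk]
    · have : (k + 1) % 2 = 0 := by omega
      rw [if_pos this, if_neg (by omega)]
  · rw [if_neg (show ¬ k + 1 + 1 ≤ D.length + 1 + 1 by omega), if_neg hl1]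
    cases nodd
    · simp only [Bool.false_eq_true, if_false]
      by_cases h4 : k + 1 = D.length + 2
      · rw [if_pos (show k + 1 + 1 = D.length + 1 + 2 by omega), if_pos h4, hsd _ _ hzδ]
      · rw [if_neg (show ¬ k + 1 + 1 = D.length + 1 + 2 by omega), if_neg h4, hsd _ _ h2]
    · simp only [if_true]
      by_cases h4 : k + 1 = D.length + 2
      · rw [if_pos (show k + 1 + 1 = D.length + 1 + 2 by omega), if_pos h4, hsd _ _ h1]
      · rw [if_neg (show ¬ k + 1 + 1 = D.length + 1 + 2 by omega), if_neg h4]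
        by_cases h5 : k + 1 = D.length + 3
        · rw [if_pos (show k + 1 + 1 = D.length + 1 + 3 by omega), if_pos h5, hsd _ _ h2]
        · rw [if_neg (show ¬ k + 1 + 1 = D.length + 1 + 3 by omega), if_neg h5, hsd _ _ h3]

private theorem WT.perm {nodd : Bool} {q1 r1 q2 r2 x w Ap : ℕ} {D b : List ℕ} {T L : Fam}
    (h : WT nodd q1 r1 q2 r2 x w Ap D b T L) :
    b.Perm (q1 :: r1 :: q2 :: r2 :: x :: w :: D) := by
  obtain ⟨d1, D1, a', rfl, ha', rfl⟩ := h.form
  rw [List.perm_iff_count]
  intro a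
  have := List.perm_iff_count.1 ha' a
  simp only [List.cons_append, List.nil_append, List.count_cons, List.count_append,
    List.count_nil, this]
  omega

private theorem choose_ge_two {n k : ℕ} (h1 : 1 ≤ k) (h2 : k + 1 ≤ n) : 2 ≤ n.choose k := by
  have := Nat.choose_le_choose (c := k) h2
  have h3 : (k + 1).choose k = k + 1 := by
    rw [Nat.choose_symm_of_eq_add (show k + 1 = k + 1 from rfl), Nat.choose_one_right]
  omega

/-- the statement of `vgen` -/
def VGen : Prop := ∀ (nodd : Bool) {q r q' r' x w d1 d2 : ℕ} {D' a' : List ℕ}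
    (_ : (q' :: r' :: q :: r :: x :: w :: d1 :: d2 :: D').Nodup) (_ : 3 ≤ D'.length)
    (_ : a'.Perm (d2 :: D')) {Ap : ℕ} (_ : Ap = r' ∨ Ap = r),
    ∃ L, PV ([q, r, x, w] ++ D' ++ [d2, d1, q', r']) ([r', x, q', w] ++ a' ++ [q, r, d1]) L ∧
      ∀ l, 1 ≤ l → l ≤ topT nodd (d1 :: d2 :: D') →
        Avoid L (Pk nodd q' r' q r x w Ap (d1 :: d2 :: D') l)

theorem wt_step_of (hvg : VGen) {nodd : Bool} {q1 r1 q2 r2 x w Ap δ : ℕ} {D b : List ℕ}
    {T L : Fam}
    (h : WT nodd q1 r1 q2 r2 x w Ap D b T L) (hAp : Ap = r1 ∨ Ap = r2) (hD : 5 ≤ D.length)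
    (hδ : δ ∉ b) : ∃ b' T' L', WT nodd q2 r2 q1 r1 x w Ap (δ :: D) b' T' L' := by
  have hperm := h.perm
  have hbl : b.length = D.length + 6 := by rw [hperm.length_eq]; simp
  have hnd := h.nd
  have hndδ : (δ :: q1 :: r1 :: q2 :: r2 :: x :: w :: D).Nodup :=
    List.nodup_cons.2 ⟨fun hh => hδ (hperm.mem_iff.2 hh), hnd⟩
  obtain ⟨d1, D1, a', hDe, ha', hb⟩ := h.form
  obtain ⟨d2, D', rfl⟩ : ∃ d2 D', D1 = d2 :: D' := by
    cases D1 with
    | nil => subst hDe; simp at hD
    | cons d2 D' => exact ⟨d2, D', rfl⟩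
  have hD' : 3 ≤ D'.length := by subst hDe; simp at hD; omega
  obtain ⟨LV, hPV, hav⟩ := hvg nodd (q := q2) (r := r2) (q' := q1) (r' := r1) (x := x) (w := w)
    (d1 := d1) (d2 := d2) (D' := D') (a' := a') (by rw [← hDe]; exact hnd) hD' ha' (Ap := Ap) hAp
  rw [← hb] at hPV
  rw [← hDe] at hav
  have hPV' : PV (q2 :: r2 :: x :: (w :: D' ++ [d2, d1, q1, r1])) b LV := by
    simpa using hPV
  obtain ⟨hTV, hEV, hneV⟩ := hPV'.tmod (by simp)
  set bV : List ℕ := r2 :: x :: q2 :: (w :: D' ++ [d2, d1, q1, r1]) with hbV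
  have hbVlen : bV.length = D.length + 6 := by
    rw [hDe]; simp [hbV]
  have hpV : b.Perm bV := by
    refine hPV'.perm.trans ?_
    rw [List.perm_iff_count]
    intro a
    simp only [hbV, List.count_cons, List.count_append]
    omega
  have hδV : δ ∉ bV := fun hh => hδ (hpV.mem_iff.2 hh)
  have htop : topT nodd D ≤ D.length + 4 := by
    unfold topT; split_ifs <;> omega
  have htop0 : D.length + 3 ≤ topT nodd D := by
    unfold topT; omega
  have htop' : topT nodd (δ :: D) = topT nodd D + 1 := by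
    unfold topT; simp only [List.length_cons]; omega
  -- the levels of `L`
  have hLlen : ∀ l, (T l).length + (L l).length = (D.length + 5).choose l := by
    intro l; rw [h.tpv.len l, hbl]; rfl
  have hLne : ∀ l, l ≤ D.length + 5 → L l ≠ [] := by
    intro l hl he
    have h1 := hLlen l
    rw [he, List.length_nil, Nat.add_zero] at h1
    rcases Nat.eq_zero_or_pos l with rfl | hl0
    · rw [h.tnone 0 (Or.inl rfl)] at h1
      simp at h1
    · rcases Nat.lt_or_ge (topT nodd D) l with h2 | h2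
      · rw [h.tnone l (Or.inr h2)] at h1
        have := Nat.choose_pos hl
        simp at h1
        omega
      · have h3 := h.tpv.tlen l
        have h4 := choose_ge_two (n := D.length + 5) (k := l) hl0 (by omega)
        omega
  have hcomp := hTV.comp (y := δ) hEV h.tpv hpV hδV (by simp [hbV]) (by
      intro l hl
      refine hneV l ?_
      simp only [hbV, List.length_cons, List.length_append, List.length_nil] at hl ⊢
      omega) (by
      intro l
      cases l with
      | zero => exact Or.inr (h.tnone 0 (Or.inl rfl))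
      | succ l => exact Or.inl (by simp [tmodT])) (by
      intro l p hp q hq
      have hl1 : 1 ≤ l := by
        by_contra hcon
        rw [h.tnone l (Or.inl (by omega))] at hp
        simp at hp
      have hl2 : l ≤ topT nodd D := by
        by_contra hcon
        rw [h.tnone l (Or.inr (by omega))] at hp
        simp at hp
      obtain ⟨c, hc⟩ := h.tsome l hl1 hl2
      rw [hc, List.mem_singleton] at hp
      subst hp
      have hq' : q ∈ LV (l + 1) := by
        have : tmodL r2 LV (l + 1) = LV (l + 1) := by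
          unfold tmodL
          rw [if_neg (by omega), if_neg (by omega)]
        rwa [this] at hq
      exact hav l hl1 hl2 (l + 1) q hq')
  have hT1 : comp δ (tmodT q2 r2) T 1 = [({q2, r2}, {q2})] := by
    show tmodT q2 r2 1 ++ (T 0).map (ins δ) = _
    rw [h.tnone 0 (Or.inl rfl)]
    simp [tmodT]
  have hTs : ∀ l, comp δ (tmodT q2 r2) T (l + 1 + 1) = (T (l + 1)).map (ins δ) := by
    intro l
    show tmodT q2 r2 (l + 1 + 1) ++ (T (l + 1)).map (ins δ) = _
    simp [tmodT]
  have hLlast : ∀ l, l ≤ D.length + 5 → ∀ p ∈ (comp δ (tmodL r2 LV) L (l + 1)).getLast?,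
      ∃ p' ∈ (L l).getLast?, ins δ p' = p := by
    intro l hl p hp
    have hne := hLne l hl
    have : comp δ (tmodL r2 LV) L (l + 1) = tmodL r2 LV (l + 1) ++ (L l).map (ins δ) := rfl
    rw [this, List.getLast?_append_of_ne_nil _ (by simpa using hne), List.getLast?_map] at hp
    rw [Option.mem_def, Option.map_eq_some_iff] at hp
    obtain ⟨p', h1, h2⟩ := hp
    exact ⟨p', h1, h2⟩
  refine ⟨bV ++ [δ], _, _, ⟨hcomp, ?_, ?_, ?_, ?_, ?_, ?_⟩⟩
  · -- nd
    refine (List.Perm.nodup_iff ?_).1 hndδ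
    rw [List.perm_iff_count]
    intro a
    simp only [List.count_cons]
    omega
  · -- form
    refine ⟨δ, D, D' ++ [d2, d1], rfl, ?_, ?_⟩
    · rw [hDe, List.perm_iff_count]
      intro a
      simp only [List.count_cons, List.count_append, List.count_nil]
      omega
    · simp [hbV]
  · -- tsome
    intro l hl1 hl2
    rw [htop'] at hl2
    obtain ⟨k, rfl⟩ : ∃ k, l = k + 1 := ⟨l - 1, by omega⟩
    cases k with
    | zero =>
      refine ⟨{q2}, ?_⟩
      rw [hT1]
      simp [Pk]
    | succ k =>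
      obtain ⟨c, hc⟩ := h.tsome (k + 1) (by omega) (by omega)
      refine ⟨insert δ c, ?_⟩
      rw [hTs, hc, Pk_cons hndδ hAp (by omega)]
      rfl
  · -- tnone
    intro l hl
    rw [htop'] at hl
    rcases hl with rfl | hl
    · show tmodT q2 r2 0 = []
      simp [tmodT]
    · obtain ⟨k, rfl⟩ : ∃ k, l = k + 1 + 1 := ⟨l - 2, by omega⟩
      rw [hTs, h.tnone (k + 1) (Or.inr (by omega))]
      rfl
  · -- link
    intro l hl p hp q hq
    obtain ⟨k, rfl⟩ : ∃ k, l = k + 1 := ⟨l - 1, by omega⟩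
    rw [hTs] at hq
    obtain ⟨q', hq', rfl⟩ := List.mem_map.1 hq
    have hk : k + 1 ≤ topT nodd D := by
      by_contra hcon
      rw [h.tnone (k + 1) (Or.inr (by omega))] at hq'
      simp at hq'
    obtain ⟨p', hp', rfl⟩ := hLlast k (by omega) p hp
    cases k with
    | zero =>
      have : p' ∈ L 0 := List.mem_of_getLast? hp'
      have hc := (h.tpv.mem 0 p' (List.mem_append.2 (Or.inr this))).2.2.2
      rw [card_eq_zero] at hc
      simp only [ins, hc]
      exact insert_subset_insert δ (empty_subset _)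
    | succ k =>
      exact insert_subset_insert δ (h.link (k + 1) (by omega) p' hp' q' hq')
  · -- toplink
    intro l hl p hp q hq
    rw [htop'] at hl
    subst hl
    obtain ⟨p', hp', rfl⟩ := hLlast _ (by omega) p hp
    obtain ⟨q', hq', rfl⟩ := hLlast _ (by omega) q hq
    exact insert_subset_insert δ (h.toplink _ rfl p' hp' q' hq')

/-- the statements of the base cases -/
def BaseWT : Prop := ∀ (nodd : Bool) {q1 r1 q2 r2 x w d1 d2 d3 d4 d5 : ℕ}
    (_ : [q1, r1, q2, r2, x, w, d1, d2, d3, d4, d5].Nodup),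
    ∃ b T L, WT nodd q1 r1 q2 r2 x w (if nodd then r2 else r1) [d1, d2, d3, d4, d5] b T L

theorem wt_exists_of (hvg : VGen) (hbase : BaseWT) (nodd : Bool) {q1 r1 q2 r2 x w Ap : ℕ}
    {D : List ℕ} (hD : 5 ≤ D.length)
    (hnd : (q1 :: r1 :: q2 :: r2 :: x :: w :: D).Nodup)
    (hAp : Ap = if (decide (D.length % 2 = 1)) = nodd then r2 else r1) :
    ∃ b T L, WT nodd q1 r1 q2 r2 x w Ap D b T L := by
  induction D generalizing q1 r1 q2 r2 with
  | nil => simp at hD
  | cons δ D ih =>
    rcases Nat.lt_or_ge D.length 5 with h5 | h5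
    · have h4 : D.length = 4 := by simp at hD; omega
      obtain ⟨d2, d3, d4, d5, rfl⟩ : ∃ d2 d3 d4 d5, D = [d2, d3, d4, d5] := by
        match D, h4 with
        | [d2, d3, d4, d5], _ => exact ⟨d2, d3, d4, d5, rfl⟩
      have := hbase nodd (q1 := q1) (r1 := r1) (q2 := q2) (r2 := r2) (x := x) (w := w)
        (d1 := δ) (d2 := d2) (d3 := d3) (d4 := d4) (d5 := d5) hnd
      have e : Ap = if nodd then r2 else r1 := by
        rw [hAp]; cases nodd <;> simp
      rw [e]; exact this
    · have hnd' : (q2 :: r2 :: q1 :: r1 :: x :: w :: D).Nodup ∧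
          δ ∉ (q2 :: r2 :: q1 :: r1 :: x :: w :: D) := by
        have : (δ :: q2 :: r2 :: q1 :: r1 :: x :: w :: D).Nodup := by
          refine (List.Perm.nodup_iff ?_).1 hnd
          rw [List.perm_iff_count]
          intro a
          simp only [List.count_cons]
          omega
        exact ⟨(List.nodup_cons.1 this).2, (List.nodup_cons.1 this).1⟩
      have hAp' : Ap = if (decide (D.length % 2 = 1)) = nodd then r1 else r2 := by
        rw [hAp]
        simp only [List.length_cons]
        rcases Nat.mod_two_eq_zero_or_one D.length with hk | hk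
        · have h1 : (D.length + 1) % 2 = 1 := by omega
          cases nodd <;> simp [hk, h1]
        · have h1 : (D.length + 1) % 2 = 0 := by omega
          cases nodd <;> simp [hk, h1]
      obtain ⟨b, T, L, hW⟩ := ih (q1 := q2) (r1 := r2) (q2 := q1) (r2 := r1) h5 hnd'.1 hAp'
      exact wt_step_of hvg hW (by rw [hAp']; split_ifs <;> simp) h5
        (fun hh => hnd'.2 (hW.perm.mem_iff.1 hh))

end Pool.Agent.Lib.MP_ad4d1c_co_h48.Ex
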